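import Mathlib
import Pool.Agent.Helper996.Bisect

namespace Pool.Agent.Results.MP_279640_co.BetaValue

open Finset Filter Topology
open scoped Classical

/-- `e(A,B)`: the number of pairs `(u,v)` with `u ∈ A`, `v ∈ B` and `uv` an edge of `G`. -/
noncomputable def crossing {n : ℕ} (G : SimpleGraph (Fin n)) (A B : Finset (Fin n)) : ℕ :=
  ((A ×ˢ B).filter (fun p => G.Adj p.1 p.2)).card

/-- `b(G)`: the largest value of `e(V₁,V₂)` over bisections, `|V₁| ≤ |V₂| ≤ |V₁|+1`. -/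
noncomputable def maxBisection {n : ℕ} (G : SimpleGraph (Fin n)) : ℕ :=
  sSup {k : ℕ | ∃ A : Finset (Fin n), A.card ≤ Aᶜ.card ∧ Aᶜ.card ≤ A.card + 1 ∧
    crossing G A Aᶜ = k}

/-- `b(m,n)`: the least `b(G)` over graphs with `n` vertices and `m` edges. -/
noncomputable def b (m n : ℕ) : ℕ :=
  sInf {k : ℕ | ∃ G : SimpleGraph (Fin n), G.edgeSet.ncard = m ∧ maxBisection G = k}

/-- `β(c)`: lower limit of `(b(m,n) - m/2)/√m` over pairs with `m ≤ n(n-1)/2`, `m → ∞`,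
`n/√m → c`. -/
noncomputable def beta (c : ℝ) : ℝ :=
  liminf (fun p : ℕ × ℕ => ((b p.1 p.2 : ℝ) - (p.1 : ℝ) / 2) / Real.sqrt p.1)
    (comap (fun p : ℕ × ℕ => p.1) atTop ⊓
      comap (fun p : ℕ × ℕ => (p.2 : ℝ) / Real.sqrt p.1) (𝓝 c) ⊓
      𝓟 {p : ℕ × ℕ | p.1 ≤ p.2.choose 2})

theorem bddAbove_bis {n : ℕ} (G : SimpleGraph (Fin n)) :
    BddAbove {k : ℕ | ∃ A : Finset (Fin n), A.card ≤ Aᶜ.card ∧ Aᶜ.card ≤ A.card + 1 ∧
      crossing G A Aᶜ = k} := by
  refine ⟨n * n, ?_⟩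
  rintro k ⟨A, -, -, rfl⟩
  unfold crossing
  refine (card_filter_le _ _).trans ?_
  rw [card_product]
  exact Nat.mul_le_mul (by simpa using card_le_univ A) (by simpa using card_le_univ Aᶜ)

theorem exists_graph {m n : ℕ} (h : m ≤ n.choose 2) :
    ∃ G : SimpleGraph (Fin n), G.edgeSet.ncard = m := by
  have h1 : m ≤ (⊤ : SimpleGraph (Fin n)).edgeFinset.card := by
    rw [SimpleGraph.card_edgeFinset_top_eq_card_choose_two, Fintype.card_fin]; exact h
  obtain ⟨T, hT, hc⟩ := exists_subset_card_eq h1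
  refine ⟨SimpleGraph.fromEdgeSet (T : Set (Sym2 (Fin n))), ?_⟩
  rw [SimpleGraph.edgeSet_fromEdgeSet]
  have : (T : Set (Sym2 (Fin n))) \ Sym2.diagSet = T := by
    rw [sdiff_eq_left, Set.disjoint_left]
    intro e he hd
    have h2 := hT he
    rw [SimpleGraph.mem_edgeFinset] at h2
    exact SimpleGraph.not_isDiag_of_mem_edgeSet _ h2 (by simpa using hd)
  rw [this, Set.ncard_coe_finset, hc]

theorem b_attained {m n : ℕ} (h : m ≤ n.choose 2) :
    ∃ G : SimpleGraph (Fin n), G.edgeSet.ncard = m ∧ maxBisection G = b m n := by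
  obtain ⟨G, hG⟩ := exists_graph h
  exact Nat.sInf_mem (s := {k : ℕ | ∃ G : SimpleGraph (Fin n),
    G.edgeSet.ncard = m ∧ maxBisection G = k}) ⟨_, G, hG, rfl⟩

/-- uniform lower bound for `b(m,n)` when `n ≤ C √m`. -/
theorem b_lower (C θ : ℝ) (hC : 0 < C) (hθ : 0 < θ) (hθ1 : θ < 1) :
    ∃ r0 : ℝ, ∀ m n : ℕ, m ≤ n.choose 2 → r0 ≤ Real.sqrt m → (n : ℝ) ≤ C * Real.sqrt m →
      (m : ℝ) / 2 + (1 - θ) * Real.sqrt m / Real.sqrt 8 ≤ (b m n : ℝ) := by
  obtain ⟨r0, h0⟩ := Pool.Agent.Helper996.Bisect.main_lower C θ hC hθ hθ1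
  refine ⟨r0, ?_⟩
  intro m n hmn hr hn
  obtain ⟨G, hG, hb⟩ := b_attained hmn
  obtain ⟨A, h1, h2, h3⟩ := h0 (Fin n) G m hG hr (by simpa using hn)
  refine h3.trans ?_
  rw [← hb]
  have : crossing G A Aᶜ ≤ maxBisection G :=
    le_csSup (bddAbove_bis G) ⟨A, h1, h2, rfl⟩
  have h4 : ((crossing G A Aᶜ : ℕ) : ℝ) ≤ (maxBisection G : ℝ) := by exact_mod_cast this
  exact h4

/-- clique plus isolated vertices. -/
theorem b_upper {s n : ℕ} (h : s ≤ n) : 4 * b (s.choose 2) n ≤ s ^ 2 := by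
  obtain ⟨G, hG⟩ : ∃ G : SimpleGraph (Fin n),
      G = (⊤ : SimpleGraph (Fin s)).map (Fin.castLEEmb h) := ⟨_, rfl⟩
  have hcard : G.edgeSet.ncard = s.choose 2 := by
    have h3 := SimpleGraph.card_edgeFinset_top_eq_card_choose_two (V := Fin s)
    rw [Fintype.card_fin] at h3
    have h4 : (⊤ : SimpleGraph (Fin s)).edgeSet.ncard = s.choose 2 := by
      rw [← h3, ← SimpleGraph.coe_edgeFinset, Set.ncard_coe_finset]
    rw [hG, SimpleGraph.edgeSet_map, Set.ncard_image_of_injective _ (Function.Embedding.injective _), h4]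
  have hb : b (s.choose 2) n ≤ maxBisection G := Nat.sInf_le ⟨G, hcard, rfl⟩
  have hmax : maxBisection G ≤ s ^ 2 / 4 := by
    apply csSup_le'
    rintro k ⟨A, -, -, rfl⟩
    rw [Nat.le_div_iff_mul_le (by norm_num)]
    set S : Finset (Fin n) := univ.map (Fin.castLEEmb h) with hS
    have hSc : S.card = s := by rw [hS, card_map, card_univ, Fintype.card_fin]
    have h1 : crossing G A Aᶜ ≤ (S ∩ A).card * (S \ A).card := by
      unfold crossing
      rw [← card_product]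
      apply card_le_card
      intro p hp
      obtain ⟨hp12, hp3⟩ := Finset.mem_filter.mp hp
      rw [Finset.mem_product, Finset.mem_compl] at hp12
      obtain ⟨hp1, hp2⟩ := hp12
      rw [hG, SimpleGraph.map_adj] at hp3
      obtain ⟨u, v, -, hu, hv⟩ := hp3
      rw [Finset.mem_product, Finset.mem_inter, Finset.mem_sdiff]
      refine ⟨⟨?_, hp1⟩, ?_, hp2⟩
      · rw [hS, Finset.mem_map]; exact ⟨u, mem_univ _, hu⟩
      · rw [hS, Finset.mem_map]; exact ⟨v, mem_univ _, hv⟩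
    have h2 : (S ∩ A).card + (S \ A).card = s := by
      rw [card_inter_add_card_sdiff, hSc]
    rw [← h2]
    zify at h1 ⊢
    nlinarith [sq_nonneg (((S ∩ A).card : ℤ) - (S \ A).card)]
  have := hb.trans hmax
  omega

theorem tendsto_ratio :
    Tendsto (fun s : ℕ => (s : ℝ) / Real.sqrt ((s.choose 2 : ℕ) : ℝ)) atTop (𝓝 (Real.sqrt 2)) := by
  have h1 : Tendsto (fun s : ℕ => Real.sqrt (2 / (1 - 1 / (s : ℝ)))) atTop
      (𝓝 (Real.sqrt (2 / (1 - 0)))) := by
    apply Tendsto.sqrt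
    apply Tendsto.div tendsto_const_nhds _ (by norm_num)
    exact tendsto_const_nhds.sub tendsto_one_div_atTop_nhds_zero_nat
  have h2 : Real.sqrt (2 / (1 - 0)) = Real.sqrt 2 := by norm_num
  rw [h2] at h1
  refine h1.congr' ?_
  filter_upwards [eventually_ge_atTop 2] with s hs
  have hs' : (2 : ℝ) ≤ s := by exact_mod_cast hs
  rw [Nat.cast_choose_two]
  have hpos : (0 : ℝ) < (s : ℝ) * ((s : ℝ) - 1) / 2 := by
    have : (0 : ℝ) < (s : ℝ) - 1 := by linarith
    positivity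
  rw [eq_div_iff (Real.sqrt_pos.mpr hpos).ne', ← Real.sqrt_mul (by
    apply div_nonneg (by norm_num)
    have : 1 / (s : ℝ) ≤ 1 := by rw [div_le_one (by linarith)]; linarith
    linarith)]
  have h3 : 2 / (1 - 1 / (s : ℝ)) * ((s : ℝ) * ((s : ℝ) - 1) / 2) = (s : ℝ) ^ 2 := by
    have : (s : ℝ) - 1 ≠ 0 := by linarith
    have : (s : ℝ) ≠ 0 := by linarith
    field_simp
  rw [h3, Real.sqrt_sq (by linarith)]

/-- The coefficient is `1/√8` for every `c ≥ √2`. -/
theorem result : ∀ c : ℝ, Real.sqrt 2 ≤ c → beta c = 1 / Real.sqrt 8 := by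
  intro c hc
  have hs2 : 0 < Real.sqrt 2 := Real.sqrt_pos.mpr (by norm_num)
  have hs22 : Real.sqrt 2 * Real.sqrt 2 = 2 := Real.mul_self_sqrt (by norm_num)
  have hs8 : Real.sqrt 8 = 2 * Real.sqrt 2 := Pool.Agent.Helper996.Bisect.sqrt_eight
  have hs8pos : 0 < Real.sqrt 8 := Real.sqrt_pos.mpr (by norm_num)
  have hcpos : 0 < c := lt_of_lt_of_le hs2 hc
  set F : Filter (ℕ × ℕ) := comap (fun p : ℕ × ℕ => p.1) atTop ⊓
      comap (fun p : ℕ × ℕ => (p.2 : ℝ) / Real.sqrt p.1) (𝓝 c) ⊓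
      𝓟 {p : ℕ × ℕ | p.1 ≤ p.2.choose 2} with hF
  set u : ℕ × ℕ → ℝ := fun p => ((b p.1 p.2 : ℝ) - (p.1 : ℝ) / 2) / Real.sqrt p.1 with hu
  -- eventual lower bound
  have hlow : ∀ θ : ℝ, 0 < θ → θ < 1 → ∀ᶠ p in F, (1 - θ) / Real.sqrt 8 ≤ u p := by
    intro θ hθ hθ1
    obtain ⟨r0, h0⟩ := b_lower (c + 1) θ (by linarith) hθ hθ1
    have e1 : ∀ᶠ p in F, p.1 ≤ p.2.choose 2 := by
      have : {p : ℕ × ℕ | p.1 ≤ p.2.choose 2} ∈ F := by
        rw [hF]; exact mem_inf_of_right (mem_principal_self _)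
      exact this
    have e2 : ∀ᶠ p in F, (p.2 : ℝ) / Real.sqrt p.1 < c + 1 := by
      have : Tendsto (fun p : ℕ × ℕ => (p.2 : ℝ) / Real.sqrt p.1) F (𝓝 c) := by
        rw [hF]; exact (tendsto_comap.mono_left (inf_le_left.trans inf_le_right))
      exact this.eventually_lt_const (by linarith)
    have e3 : Tendsto (fun p : ℕ × ℕ => p.1) F atTop := by
      rw [hF]; exact (tendsto_comap.mono_left (inf_le_left.trans inf_le_left))
    have e4 : Tendsto (fun p : ℕ × ℕ => Real.sqrt (p.1 : ℝ)) F atTop :=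
      Real.tendsto_sqrt_atTop.comp (tendsto_natCast_atTop_atTop.comp e3)
    filter_upwards [e1, e2, e4.eventually_ge_atTop r0, e4.eventually_ge_atTop 1] with p h1 h2 h3 h4
    have hpos : 0 < Real.sqrt (p.1 : ℝ) := by linarith
    have h5 := h0 p.1 p.2 h1 h3 (by
      rw [div_lt_iff₀ hpos] at h2; exact h2.le)
    simp only [hu]
    rw [le_div_iff₀ hpos]
    have : (1 - θ) / Real.sqrt 8 * Real.sqrt p.1 = (1 - θ) * Real.sqrt p.1 / Real.sqrt 8 := by ring
    rw [this]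
    linarith
  -- a sequence of good pairs
  set ps : ℕ → ℕ × ℕ := fun s => (s.choose 2, ⌈c * s / Real.sqrt 2⌉₊) with hps
  have hge : ∀ s : ℕ, s ≤ ⌈c * s / Real.sqrt 2⌉₊ := by
    intro s
    have h1 : (s : ℝ) ≤ c * s / Real.sqrt 2 := by
      rw [le_div_iff₀ hs2]
      have : (0 : ℝ) ≤ s := Nat.cast_nonneg s
      nlinarith
    have h2 := Nat.le_ceil (c * s / Real.sqrt 2)
    exact_mod_cast h1.trans h2
  have hchoose : Tendsto (fun s : ℕ => s.choose 2) atTop atTop := by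
    rw [tendsto_atTop_atTop]
    intro B
    refine ⟨B + 2, fun s hs => ?_⟩
    rw [Nat.choose_two_right, Nat.le_div_iff_mul_le (by norm_num)]
    obtain ⟨j, rfl⟩ : ∃ j, s = B + 2 + j := ⟨s - (B + 2), by omega⟩
    have : B + 2 + j - 1 = B + 1 + j := by omega
    rw [this]; nlinarith
  have hratio : Tendsto (fun s : ℕ => ((⌈c * s / Real.sqrt 2⌉₊ : ℕ) : ℝ) / Real.sqrt (s.choose 2 : ℕ))
      atTop (𝓝 c) := by
    have h1 : Tendsto (fun s : ℕ => ((⌈c / Real.sqrt 2 * s⌉₊ : ℕ) : ℝ) / (s : ℝ)) atTop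
        (𝓝 (c / Real.sqrt 2)) := by
      have := tendsto_nat_ceil_mul_div_atTop (R := ℝ) (a := c / Real.sqrt 2) (by positivity)
      exact this.comp tendsto_natCast_atTop_atTop
    have h2 := h1.mul tendsto_ratio
    have h3 : c / Real.sqrt 2 * Real.sqrt 2 = c := by field_simp
    rw [h3] at h2
    refine h2.congr' ?_
    filter_upwards [eventually_ge_atTop 1] with s hs
    have hs' : (s : ℝ) ≠ 0 := by positivity
    have : c / Real.sqrt 2 * s = c * s / Real.sqrt 2 := by ring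
    rw [this]
    field_simp
  have hpsF : Tendsto ps atTop F := by
    rw [hF]
    refine tendsto_inf.mpr ⟨tendsto_inf.mpr ⟨?_, ?_⟩, ?_⟩
    · rw [tendsto_comap_iff]; exact hchoose
    · rw [tendsto_comap_iff]; exact hratio
    · rw [tendsto_principal]
      exact Eventually.of_forall fun s => Nat.choose_le_choose 2 (hge s)
  have hup : ∀ ε : ℝ, 0 < ε → ∃ᶠ p in F, u p ≤ 1 / Real.sqrt 8 + ε := by
    intro ε hε
    have h1 : Tendsto (fun s : ℕ => (s : ℝ) / Real.sqrt ((s.choose 2 : ℕ) : ℝ) / 4) atTop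
        (𝓝 (Real.sqrt 2 / 4)) := tendsto_ratio.div_const 4
    have h2 : Real.sqrt 2 / 4 = 1 / Real.sqrt 8 := by
      rw [hs8]; field_simp; nlinarith
    rw [h2] at h1
    have h3 : ∀ᶠ s : ℕ in atTop, u (ps s) ≤ 1 / Real.sqrt 8 + ε := by
      filter_upwards [h1.eventually_le_const (show 1 / Real.sqrt 8 < 1 / Real.sqrt 8 + ε by linarith),
        eventually_ge_atTop 2] with s hs hs2
      refine le_trans ?_ hs
      simp only [hu, hps]
      have h4 := b_upper (hge s)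
      have h5 : 4 * (b (s.choose 2) ⌈c * s / Real.sqrt 2⌉₊ : ℝ) ≤ (s : ℝ) ^ 2 := by exact_mod_cast h4
      have h6 : ((s.choose 2 : ℕ) : ℝ) = s * (s - 1) / 2 := Nat.cast_choose_two ℝ s
      have hpos : 0 < Real.sqrt ((s.choose 2 : ℕ) : ℝ) := by
        apply Real.sqrt_pos.mpr
        have : 0 < s.choose 2 := Nat.choose_pos hs2
        exact_mod_cast this
      rw [div_right_comm, div_le_div_iff_of_pos_right hpos]
      rw [h6]
      linarith
    exact hpsF.frequently h3.frequently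
  have hbdd : F.IsBoundedUnder (· ≥ ·) u :=
    ⟨(1 - 1 / 2) / Real.sqrt 8, by
      have := hlow (1 / 2) (by norm_num) (by norm_num)
      simpa [eventually_map] using this⟩
  have hcobdd : F.IsCoboundedUnder (· ≥ ·) u := IsCoboundedUnder.of_frequently_le (hup 1 one_pos)
  have hgoal : liminf u F = 1 / Real.sqrt 8 := by
    apply le_antisymm
    · apply le_of_forall_pos_le_add
      intro ε hε
      exact liminf_le_of_frequently_le (hup ε hε) hbdd
    · apply le_of_forall_pos_le_add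
      intro ε hε
      obtain ⟨θ, hθ0, hθ1, hθε⟩ : ∃ θ : ℝ, 0 < θ ∧ θ < 1 ∧ θ / Real.sqrt 8 ≤ ε := by
        refine ⟨min (1 / 2) ε, lt_min (by norm_num) hε, (min_le_left _ _).trans_lt (by norm_num), ?_⟩
        rw [div_le_iff₀ hs8pos]
        have h8 : (1 : ℝ) ≤ Real.sqrt 8 := by
          rw [show (1 : ℝ) = Real.sqrt 1 by simp]
          exact Real.sqrt_le_sqrt (by norm_num)
        have := min_le_right (1 / 2) ε
        nlinarith
      have h1 := le_liminf_of_le hcobdd (hlow θ hθ0 hθ1)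
      have h2 : (1 - θ) / Real.sqrt 8 = 1 / Real.sqrt 8 - θ / Real.sqrt 8 := by ring
      linarith
  exact hgoal

end Pool.Agent.Results.MP_279640_co.BetaValue
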