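import Mathlib
import Pool.Agent.Helper996.Upper

namespace Pool.Agent.Results.MP_279640_co.WideRange

open Finset
open scoped Classical
open Pool.Agent.Helper996

/-- `e(A,B)`: the number of pairs `(u,v)` with `u ∈ A`, `v ∈ B` and `uv` an edge of `G`. -/
noncomputable def crossing {n : ℕ} (G : SimpleGraph (Fin n)) (A B : Finset (Fin n)) : ℕ :=
  ((A ×ˢ B).filter (fun p => G.Adj p.1 p.2)).card

/-- `b(G)`: the largest value of `e(V₁,V₂)` over bisections, `|V₁| ≤ |V₂| ≤ |V₁|+1`. -/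
noncomputable def maxBisection {n : ℕ} (G : SimpleGraph (Fin n)) : ℕ :=
  sSup {k : ℕ | ∃ A : Finset (Fin n), A.card ≤ Aᶜ.card ∧ Aᶜ.card ≤ A.card + 1 ∧
    crossing G A Aᶜ = k}

/-- `b(m,n)`: the least `b(G)` over graphs with `n` vertices and `m` edges. -/
noncomputable def b (m n : ℕ) : ℕ :=
  sInf {k : ℕ | ∃ G : SimpleGraph (Fin n), G.edgeSet.ncard = m ∧ maxBisection G = k}

/-- `ψ(j) = (√(8j+1) - 1)/8` for `j ≥ 0` and `ψ(j) = -j/2` for `j < 0`. -/
noncomputable def psi (j : ℝ) : ℝ := if 0 ≤ j then (Real.sqrt (8 * j + 1) - 1) / 8 else -j / 2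

/-- `κ_a(n) + ψ(m - e_a(n))` with `e_a(n) = a(n-a) + a(a-1)/2` and `κ_a(n) = (a²+a)/4` for even
`n`, `κ_a(n) = (a²+3a)/4` for odd `n`. -/
noncomputable def cost (m n a : ℕ) : ℝ :=
  ((a : ℝ) ^ 2 + a) / 4 + (if Even n then 0 else (a : ℝ) / 2)
    + psi ((m : ℝ) - ((a : ℝ) * (n - a) + (a : ℝ) * (a - 1) / 2))

/-- `Ψ(m,n)`, the minimum of `cost m n a` over `0 ≤ a ≤ n`. -/
noncomputable def Psi (m n : ℕ) : ℝ := ⨅ a : Fin (n + 1), cost m n a

theorem crossing_eq {n : ℕ} (G : SimpleGraph (Fin n)) (S : Finset (Fin n)) :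
    crossing G S Sᶜ = Final.cr G S := rfl

theorem bddAbove_bis {n : ℕ} (G : SimpleGraph (Fin n)) :
    BddAbove {k : ℕ | ∃ A : Finset (Fin n), A.card ≤ Aᶜ.card ∧ Aᶜ.card ≤ A.card + 1 ∧
      crossing G A Aᶜ = k} := by
  refine ⟨n * n, ?_⟩
  rintro k ⟨A, -, -, rfl⟩
  unfold crossing
  refine (card_filter_le _ _).trans ?_
  rw [card_product]
  exact Nat.mul_le_mul (by simpa using card_le_univ A) (by simpa using card_le_univ Aᶜ)

theorem exists_graph {m n : ℕ} (h : m ≤ n.choose 2) :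
    ∃ G : SimpleGraph (Fin n), G.edgeSet.ncard = m := by
  have h3 := SimpleGraph.card_edgeFinset_top_eq_card_choose_two (V := Fin n)
  rw [Fintype.card_fin] at h3
  have h4 : (⊤ : SimpleGraph (Fin n)).edgeSet.ncard = n.choose 2 := by
    rw [← h3, ← SimpleGraph.coe_edgeFinset, Set.ncard_coe_finset]
  obtain ⟨G, -, hG⟩ := Upper.exists_subgraph (⊤ : SimpleGraph (Fin n)) m (by rw [h4]; exact h)
  exact ⟨G, hG⟩

theorem le_choose {m n : ℕ} (h : 64 * m ≤ n ^ 2) : m ≤ n.choose 2 := by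
  rw [Nat.choose_two_right, Nat.le_div_iff_mul_le (by norm_num)]
  rcases Nat.eq_zero_or_pos n with h0 | h0
  · subst h0; omega
  · rcases Nat.eq_zero_or_pos m with h1 | h1
    · subst h1; simp
    · obtain ⟨k, rfl⟩ : ∃ k, n = k + 2 := ⟨n - 2, by
        have : 1 < n := by
          by_contra hn
          have : n = 1 := by omega
          subst this
          omega
        omega⟩
      have : k + 2 - 1 = k + 1 := by omega
      rw [this]
      nlinarith

theorem b_attained {m n : ℕ} (h : m ≤ n.choose 2) :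
    ∃ G : SimpleGraph (Fin n), G.edgeSet.ncard = m ∧ maxBisection G = b m n := by
  obtain ⟨G, hG⟩ := exists_graph h
  exact Nat.sInf_mem (s := {k : ℕ | ∃ G : SimpleGraph (Fin n),
    G.edgeSet.ncard = m ∧ maxBisection G = k}) ⟨_, G, hG, rfl⟩

theorem psi_nonneg (j : ℝ) : 0 ≤ psi j := by
  unfold psi
  split_ifs with h
  · have : 1 ≤ Real.sqrt (8 * j + 1) := Real.one_le_sqrt.mpr (by linarith)
    linarith
  · push Not at h; linarith

theorem psi_le_of_sq {m : ℕ} {ρ : ℝ} (hρ : 0 ≤ ρ) (h : 2 * (m : ℝ) ≤ ρ ^ 2) :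
    psi m ≤ ρ / 4 := by
  unfold psi
  rw [if_pos (Nat.cast_nonneg m)]
  have : Real.sqrt (8 * m + 1) ≤ 2 * ρ + 1 := by
    apply Real.sqrt_le_iff.mpr
    constructor
    · positivity
    · nlinarith
  linarith

theorem psi_le_of_color {j H q r : ℝ} (hj : 2 * j ≤ H) (hq : 0 ≤ q) (hr : 0 ≤ r)
    (h1 : q * (q - 1) ≤ H) (h2 : H ≤ q * r) (hj0 : 0 ≤ j) : psi j ≤ r / 4 := by
  unfold psi
  rw [if_pos hj0]
  set S := Real.sqrt (8 * j + 1) with hS
  have hS2 : S ^ 2 = 8 * j + 1 := Real.sq_sqrt (by linarith)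
  have hS1 : 1 ≤ S := Real.one_le_sqrt.mpr (by linarith)
  -- suppose r < (S-1)/2
  by_contra hcon
  push Not at hcon
  have hr' : r < (S - 1) / 2 := by linarith
  -- H ≥ (S²-1)/4, so q > (S+1)/2, then q r ≥ H ≥ q (q-1) gives r ≥ q - 1 > (S-1)/2
  have hH : (S ^ 2 - 1) / 4 ≤ H := by linarith
  have hqpos : 0 < q := by
    rcases hq.lt_or_eq with h | h
    · exact h
    · exfalso
      rw [← h] at h2
      have : S ^ 2 ≤ 1 := by linarith
      have hS' : S = 1 := by nlinarith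
      rw [hS'] at hr'
      linarith
  have hrq : q - 1 ≤ r := by
    have : q * (q - 1) ≤ q * r := h1.trans h2
    exact le_of_mul_le_mul_left this hqpos
  have hq2 : q < (S + 1) / 2 := by linarith
  have h3 : q * r < (S + 1) / 2 * ((S - 1) / 2) := by
    have h4 : q * r ≤ (S + 1) / 2 * r := mul_le_mul_of_nonneg_right hq2.le hr
    have h5 : (S + 1) / 2 * r < (S + 1) / 2 * ((S - 1) / 2) :=
      mul_lt_mul_of_pos_left hr' (by linarith)
    linarith
  have h6 : (S + 1) / 2 * ((S - 1) / 2) = (S ^ 2 - 1) / 4 := by ring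
  linarith

theorem sg_real (n : ℕ) : ((Final.sg (Fin n) : ℤ) : ℝ) = if Even n then 0 else -1 := by
  unfold Final.sg
  rw [Fintype.card_fin]
  split_ifs <;> simp

/-- every graph in the range has a bisection of size `≥ m/2 + cost m n a` for some `a ≤ n`. -/
theorem lower (m n : ℕ) (hn : 64 * m ≤ n ^ 2) (G : SimpleGraph (Fin n))
    (hm : G.edgeSet.ncard = m) :
    ∃ a : Fin (n + 1), (m : ℝ) / 2 + cost m n a ≤ (maxBisection G : ℝ) := by
  have hmax : ∀ S : Finset (Fin n), S.card ≤ Sᶜ.card → Sᶜ.card ≤ S.card + 1 →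
      (Final.cr G S : ℝ) ≤ (maxBisection G : ℝ) := by
    intro S h1 h2
    have : crossing G S Sᶜ ≤ maxBisection G := le_csSup (bddAbove_bis G) ⟨S, h1, h2, rfl⟩
    rw [crossing_eq] at this
    exact_mod_cast this
  rcases Final.dichotomy G m hm (by rw [Fintype.card_fin]; exact hn) with
    ⟨S, h1, h2, ρ, h3, h4⟩ | ⟨T, A, w0, -, hT, hbig⟩
  · refine ⟨0, ?_⟩
    have h5 := hmax S h1 h2
    have h6 : 2 * (m : ℝ) + ρ ≤ 4 * (Final.cr G S : ℝ) := by exact_mod_cast h4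
    have h7 := psi_le_of_sq (m := m) (ρ := ρ) (Nat.cast_nonneg ρ) (by exact_mod_cast h3)
    unfold cost
    simp only [Fin.val_zero, Nat.cast_zero]
    have e : (m : ℝ) - ((0 : ℝ) * (n - 0) + (0 : ℝ) * (0 - 1) / 2) = m := by ring
    rw [e]
    have e2 : (if Even n then (0 : ℝ) else (0 : ℝ) / 2) = 0 := by split_ifs <;> simp
    rw [e2]
    linarith
  · have hAn : A.card ≤ n := by simpa using card_le_univ A
    refine ⟨⟨A.card, by omega⟩, ?_⟩
    unfold cost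
    simp only
    set a : ℝ := (A.card : ℝ) with ha
    set j : ℝ := (m : ℝ) - (a * (n - a) + a * (a - 1) / 2) with hj
    have hB := Bisect.B_one_one G
    rw [hm] at hB
    have esg : (if Even n then (0 : ℝ) else a / 2) = -(a / 2) * ((Final.sg (Fin n) : ℤ) : ℝ) := by
      rw [sg_real]; split_ifs <;> ring
    rw [esg]
    by_cases hj0 : 0 ≤ j
    · obtain ⟨S, h1, h2, q, r, H, hr0, hq1, hq2, hH, h3⟩ := Final.twin_lower_two G T A hT hbig
      have h5 := hmax S h1 h2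
      rw [hB, Fintype.card_fin] at hH
      rw [hB] at h3
      have hH' : 2 * (m : ℝ) ≤ a * (a - 1) + 2 * a * (n - a) + H := by
        have := (Int.cast_le (R := ℝ)).mpr hH
        push_cast at this
        exact this
      have h3' : 2 * (m : ℝ) + a * (a + 1) - 2 * a * ((Final.sg (Fin n) : ℤ) : ℝ) + r
          ≤ 4 * (Final.cr G S : ℝ) := by
        have := (Int.cast_le (R := ℝ)).mpr h3
        push_cast at this
        exact this
      have h6 : psi j ≤ (r : ℝ) / 4 := by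
        refine psi_le_of_color (H := H) (q := q) ?_ (Nat.cast_nonneg q) (by exact_mod_cast hr0)
          (by exact_mod_cast hq1) (by exact_mod_cast hq2) hj0
        rw [hj]; linarith
      linarith
    · obtain ⟨S, h1, h2, h3⟩ := Final.twin_lower_one G T A hT hbig
      have h5 := hmax S h1 h2
      rw [Fintype.card_fin] at h3
      have h3' : 4 * (Final.cr G S : ℝ) = 2 * a * (n - ((Final.sg (Fin n) : ℤ) : ℝ)) := by
        have := congrArg (Int.cast : ℤ → ℝ) h3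
        push_cast at this
        exact this
      unfold psi
      rw [if_neg hj0, hj]
      nlinarith

/-- greedy decomposition of an integer. -/
theorem greedy (j : ℕ) : ∃ s : ℕ, 1 ≤ s ∧ s * (s - 1) ≤ 2 * j ∧ 2 * j < s * (s - 1) + 2 * s := by
  induction j with
  | zero => exact ⟨1, le_rfl, by norm_num, by norm_num⟩
  | succ j ih =>
    obtain ⟨s, h1, h2, h3⟩ := ih
    by_cases h : 2 * (j + 1) < s * (s - 1) + 2 * s
    · exact ⟨s, h1, by omega, h⟩
    · refine ⟨s + 1, by omega, ?_, ?_⟩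
      · obtain ⟨t, rfl⟩ : ∃ t, s = t + 1 := ⟨s - 1, by omega⟩
        have e1 : t + 1 - 1 = t := by omega
        have e2 : t + 1 + 1 - 1 = t + 1 := by omega
        rw [e1] at h h2 h3
        rw [e2]
        nlinarith
      · obtain ⟨t, rfl⟩ : ∃ t, s = t + 1 := ⟨s - 1, by omega⟩
        have e1 : t + 1 - 1 = t := by omega
        have e2 : t + 1 + 1 - 1 = t + 1 := by omega
        rw [e1] at h h2 h3
        rw [e2]
        nlinarith

theorem b_le_of_graph {m n : ℕ} (G : SimpleGraph (Fin n)) (hm : G.edgeSet.ncard = m) (R : ℤ)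
    (hR : ∀ S : Finset (Fin n), S.card ≤ Sᶜ.card → Sᶜ.card ≤ S.card + 1 →
        4 * (Final.cr G S : ℤ) ≤ R) (hR0 : 0 ≤ R) : 4 * (b m n : ℝ) ≤ R := by
  have h1 : b m n ≤ maxBisection G := Nat.sInf_le ⟨G, hm, rfl⟩
  have h2 : maxBisection G ≤ (R / 4).toNat := by
    apply csSup_le'
    rintro k ⟨S, hs1, hs2, rfl⟩
    have := hR S hs1 hs2
    rw [crossing_eq]
    omega
  have h3 : 4 * (b m n : ℤ) ≤ R := by omega
  exact_mod_cast h3

/-- exact upper bound in the deficit case. -/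
theorem upper_neg (m n : ℕ) (a : ℕ) (ha : a ≤ n)
    (hj : (m : ℝ) - ((a : ℝ) * (n - a) + (a : ℝ) * (a - 1) / 2) ≤ 0) :
    (b m n : ℝ) ≤ (m : ℝ) / 2 + cost m n a := by
  have hj' : 2 * (m : ℤ) ≤ 2 * a * (n - a) + a * (a - 1) := by
    have : 2 * (m : ℝ) ≤ 2 * a * (n - a) + a * (a - 1) := by linarith
    exact_mod_cast this
  obtain ⟨c, hc⟩ : ∃ c : ℕ, (a : ℤ) * (a - 1) = 2 * c := by
    obtain ⟨c, hc⟩ := Nat.even_mul_pred_self a
    refine ⟨c, ?_⟩
    rcases Nat.eq_zero_or_pos a with h | h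
    · subst h; simp at hc; simp; omega
    · have : ((a * (a - 1) : ℕ) : ℤ) = ((c + c : ℕ) : ℤ) := by rw [hc]
      push_cast [Nat.cast_sub h] at this
      linarith
  obtain ⟨i, hi⟩ : ∃ i : ℕ, 2 * (i : ℤ) = 2 * a * (n - a) + a * (a - 1) - 2 * m := by
    refine ⟨((a : ℤ) * (n - a) + c - m).toNat, ?_⟩
    rw [Int.toNat_of_nonneg (by linarith)]
    rw [hc]; ring
  obtain ⟨G, hG, hS⟩ := Upper.construct_neg (V := Fin n) a i (by rw [Fintype.card_fin]; exact ha)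
    (by rw [Fintype.card_fin, hi]; linarith [(Nat.cast_nonneg m : (0:ℤ) ≤ (m:ℤ))])
  rw [Fintype.card_fin] at hG
  have hGm : G.edgeSet.ncard = m := by
    have : (G.edgeSet.ncard : ℤ) = m := by linarith
    exact_mod_cast this
  have h1 := b_le_of_graph G hGm _ hS (by
    rw [hGm]
    have h2 := Final.sg_cases (Fin n)
    have h3 : (0 : ℤ) ≤ a := Nat.cast_nonneg a
    have h4 : (0 : ℤ) ≤ a * (a + 1) := by positivity
    have h5 : (0 : ℤ) ≤ m := Nat.cast_nonneg m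
    have h6 : (0 : ℤ) ≤ i := Nat.cast_nonneg i
    rcases h2 with h | h <;> rw [h] <;> linarith)
  rw [hGm] at h1
  push_cast at h1
  have hi' : 2 * (i : ℝ) = 2 * a * (n - a) + a * (a - 1) - 2 * m := by exact_mod_cast hi
  unfold cost
  have esg : (if Even n then (0 : ℝ) else (a : ℝ) / 2)
      = -((a : ℝ) / 2) * ((Final.sg (Fin n) : ℤ) : ℝ) := by
    rw [sg_real]; split_ifs <;> ring
  rw [esg]
  have hpsi : psi ((m : ℝ) - ((a : ℝ) * (n - a) + (a : ℝ) * (a - 1) / 2)) = i / 2 := by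
    unfold psi
    split_ifs with h
    · have h0 : (m : ℝ) - ((a : ℝ) * (n - a) + (a : ℝ) * (a - 1) / 2) = 0 := le_antisymm hj h
      rw [h0]
      have : (i : ℝ) = 0 := by linarith
      rw [this]; simp
    · linarith
  rw [hpsi]
  linarith

theorem size_bounds {m n a s1 : ℕ} (hm : 1 ≤ m) (hn : 64 * m ≤ n ^ 2) (ha : a ≤ n)
    (h1 : 2 * (a : ℤ) * (n - a) + a * (a - 1) ≤ 2 * m) (hs1 : 1 ≤ s1)
    (h2 : s1 * (s1 - 1) ≤ 2 * m) : 8 ≤ n ∧ 28 * a ≤ n ∧ 11 * s1 ≤ 2 * n + 11 := by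
  have hn8 : 8 ≤ n := by
    by_contra h
    have : n ≤ 7 := by omega
    have : n ^ 2 ≤ 7 ^ 2 := Nat.pow_le_pow_left this 2
    omega
  refine ⟨hn8, ?_, ?_⟩
  · by_contra hcon
    have hcon' : (n : ℤ) + 1 ≤ 28 * a := by
      have : n + 1 ≤ 28 * a := by omega
      exact_mod_cast this
    have h3 : (a : ℤ) * (n - 1) ≤ 2 * m := by
      have ha0 : (0 : ℤ) ≤ a := Nat.cast_nonneg a
      have ha' : (a : ℤ) ≤ n := by exact_mod_cast ha
      nlinarith
    have h4 : 64 * (m : ℤ) ≤ (n : ℤ) ^ 2 := by exact_mod_cast hn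
    have h5 : ((n : ℤ) + 1) * (n - 1) ≤ 28 * a * (n - 1) := by
      apply mul_le_mul_of_nonneg_right hcon'
      have : (8 : ℤ) ≤ n := by exact_mod_cast hn8
      linarith
    have h6 : (8 : ℤ) ≤ n := by exact_mod_cast hn8
    nlinarith
  · obtain ⟨t, rfl⟩ : ∃ t, s1 = t + 1 := ⟨s1 - 1, by omega⟩
    have e1 : t + 1 - 1 = t := by omega
    rw [e1] at h2
    by_contra hcon
    have hcon' : 2 * n + 1 ≤ 11 * t := by omega
    have h3 : (2 * n + 1) ^ 2 ≤ (11 * t) ^ 2 := Nat.pow_le_pow_left hcon' 2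
    nlinarith

theorem exists_half {m n a : ℕ}
    (h : 2 * (a : ℤ) * (n - a) + a * (a - 1) ≤ 2 * m) :
    ∃ j : ℕ, 2 * (j : ℤ) = 2 * m - (2 * (a : ℤ) * (n - a) + a * (a - 1)) := by
  obtain ⟨c, hc⟩ : ∃ c : ℕ, (a : ℤ) * (a - 1) = 2 * c := by
    obtain ⟨c, hc⟩ := Nat.even_mul_pred_self a
    refine ⟨c, ?_⟩
    rcases Nat.eq_zero_or_pos a with h | h
    · subst h; simp at hc; simp; omega
    · have : ((a * (a - 1) : ℕ) : ℤ) = ((c + c : ℕ) : ℤ) := by rw [hc]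
      push_cast [Nat.cast_sub h] at this
      linarith
  refine ⟨((m : ℤ) - (a * (n - a) + c)).toNat, ?_⟩
  rw [Int.toNat_of_nonneg (by linarith)]
  rw [hc]; ring

theorem cast_mul_pred (s : ℕ) (hs : 1 ≤ s) : ((s * (s - 1) : ℕ) : ℤ) = (s : ℤ) * (s - 1) := by
  push_cast [Nat.cast_sub hs]; ring

/-- upper bound in the surplus case. -/
theorem upper_pos (m n : ℕ) (hm : 1 ≤ m) (hn : 64 * m ≤ n ^ 2) (a : ℕ) (ha : a ≤ n)
    (hj : 0 ≤ (m : ℝ) - ((a : ℝ) * (n - a) + (a : ℝ) * (a - 1) / 2)) :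
    (b m n : ℝ) ≤ (m : ℝ) / 2 + cost m n a + 1
      + 3 * Real.sqrt (psi ((m : ℝ) - ((a : ℝ) * (n - a) + (a : ℝ) * (a - 1) / 2))) := by
  have hj' : 2 * (a : ℤ) * (n - a) + a * (a - 1) ≤ 2 * m := by
    have : 2 * (a : ℝ) * (n - a) + a * (a - 1) ≤ 2 * m := by linarith
    exact_mod_cast this
  obtain ⟨j, hjn⟩ := exists_half hj'
  obtain ⟨s1, hs1, hs1a, hs1b⟩ := greedy j
  obtain ⟨j1, hj1⟩ : ∃ j1 : ℕ, 2 * j1 + s1 * (s1 - 1) = 2 * j := by
    obtain ⟨c, hc⟩ := Nat.even_mul_pred_self s1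
    exact ⟨j - c, by omega⟩
  obtain ⟨s2, hs2, hs2a, hs2b⟩ := greedy j1
  obtain ⟨j3, hj3⟩ : ∃ j3 : ℕ, 2 * j3 + s2 * (s2 - 1) = 2 * j1 := by
    obtain ⟨c, hc⟩ := Nat.even_mul_pred_self s2
    exact ⟨j1 - c, by omega⟩
  have hs21 : s2 ≤ s1 := by
    by_contra hcon
    obtain ⟨t, ht⟩ : ∃ t, s2 = s1 + 1 + t := ⟨s2 - (s1 + 1), by omega⟩
    have e : s2 - 1 = s1 + t := by omega
    rw [e, ht] at hs2a
    nlinarith
  have hj3b : 2 * j3 ≤ s2 * (s2 - 1) := by
    obtain ⟨t, rfl⟩ : ∃ t, s2 = t + 1 := ⟨s2 - 1, by omega⟩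
    have e1 : t + 1 - 1 = t := by omega
    rw [e1] at hj3 hs2b ⊢
    rcases Nat.eq_zero_or_pos t with h | h
    · subst h; omega
    · have h1 : 2 * j3 ≤ 2 * t := by
        generalize (t + 1) * t = z at hj3 hs2b
        omega
      nlinarith
  have hjm : j ≤ m := by
    have h1 : (0 : ℤ) ≤ 2 * (a : ℤ) * (n - a) + a * (a - 1) := by
      have h2 : (a : ℤ) ≤ n := by exact_mod_cast ha
      have h3 : (0 : ℤ) ≤ a * (a - 1) := by
        rcases Nat.eq_zero_or_pos a with h | h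
        · subst h; simp
        · have : (1 : ℤ) ≤ a := by exact_mod_cast h
          nlinarith
      have h4 : (0 : ℤ) ≤ a * (n - a) := mul_nonneg (Nat.cast_nonneg a) (by linarith)
      linarith
    omega
  obtain ⟨z1, z2, z3⟩ := size_bounds hm hn ha hj' hs1 (by omega)
  obtain ⟨G, hG, hS⟩ := Upper.construct_pos (V := Fin n) a s1 s2 s2 j3
    (by rw [Fintype.card_fin]; omega) hj3b
  rw [Fintype.card_fin] at hG
  obtain ⟨u1, hu1⟩ : ∃ u, u = s1 / 2 := ⟨_, rfl⟩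
  obtain ⟨u2, hu2⟩ : ∃ u, u = s2 / 2 := ⟨_, rfl⟩
  rw [← hu1, ← hu2] at hS
  have c1 := cast_mul_pred s1 hs1
  have c2 := cast_mul_pred s2 hs2
  have hj1' : 2 * (j1 : ℤ) + s1 * (s1 - 1) = 2 * j := by rw [← c1]; exact_mod_cast hj1
  have hj3' : 2 * (j3 : ℤ) + s2 * (s2 - 1) = 2 * j1 := by rw [← c2]; exact_mod_cast hj3
  have hGm : G.edgeSet.ncard = m := by
    have : (G.edgeSet.ncard : ℤ) = m := by linarith
    exact_mod_cast this
  have h1 := b_le_of_graph G hGm _ hS (by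
    rw [hGm]
    have h2 := Final.sg_cases (Fin n)
    have h3 : (0 : ℤ) ≤ a := Nat.cast_nonneg a
    have h4 : (0 : ℤ) ≤ a * (a + 1) := by positivity
    have h5 : (0 : ℤ) ≤ m := Nat.cast_nonneg m
    have h6 : (0 : ℤ) ≤ j3 := Nat.cast_nonneg j3
    have h7 : (0 : ℤ) ≤ (u1 : ℤ) := Nat.cast_nonneg _
    have h8 : (0 : ℤ) ≤ (u2 : ℤ) := Nat.cast_nonneg _
    rcases h2 with h | h <;> rw [h] <;> linarith)
  rw [hGm] at h1
  push_cast at h1
  have hs1h : 2 * (u1 : ℝ) ≤ s1 := by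
    have : 2 * u1 ≤ s1 := by omega
    exact_mod_cast this
  have hs2h : 2 * (u2 : ℝ) ≤ s2 := by
    have : 2 * u2 ≤ s2 := by omega
    exact_mod_cast this
  have hs2j : 2 * (j3 : ℝ) ≤ 2 * s2 - 2 := by
    have : 2 * j3 + 2 ≤ 2 * s2 := by omega
    have : (2 * (j3 : ℝ) + 2) ≤ 2 * s2 := by exact_mod_cast this
    linarith
  have hjr : (m : ℝ) - ((a : ℝ) * (n - a) + (a : ℝ) * (a - 1) / 2) = j := by
    have : 2 * (j : ℝ) = 2 * m - (2 * (a : ℝ) * (n - a) + a * (a - 1)) := by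
      have := congrArg (Int.cast : ℤ → ℝ) hjn
      push_cast at this
      exact this
    linarith
  unfold cost
  rw [hjr]
  have esg : (if Even n then (0 : ℝ) else (a : ℝ) / 2)
      = -((a : ℝ) / 2) * ((Final.sg (Fin n) : ℤ) : ℝ) := by
    rw [sg_real]; split_ifs <;> ring
  rw [esg]
  have hp0 := psi_nonneg (j : ℝ)
  have hpdef : psi (j : ℝ) = (Real.sqrt (8 * j + 1) - 1) / 8 := by
    unfold psi; rw [if_pos (Nat.cast_nonneg j)]
  have k1 : (s1 : ℝ) ≤ 4 * psi j + 1 := by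
    have h2 : 2 * (s1 : ℝ) - 1 ≤ Real.sqrt (8 * j + 1) := by
      apply Real.le_sqrt_of_sq_le
      have : (s1 : ℤ) * (s1 - 1) ≤ 2 * j := by linarith [(Nat.cast_nonneg j1 : (0:ℤ) ≤ (j1:ℤ))]
      have h3 : (s1 : ℝ) * (s1 - 1) ≤ 2 * j := by exact_mod_cast this
      nlinarith
    rw [hpdef]; linarith
  have k2 : (s2 : ℝ) - 1 ≤ 3 * Real.sqrt (psi j) := by
    have h2 : (s2 : ℝ) * (s2 - 1) ≤ 8 * psi j := by
      have h3 : (s2 : ℝ) * (s2 - 1) ≤ 2 * j1 := by
        have : (s2 : ℤ) * (s2 - 1) ≤ 2 * j1 := by linarith [(Nat.cast_nonneg j3 : (0:ℤ) ≤ (j3:ℤ))]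
        exact_mod_cast this
      have h4 : 2 * (j1 : ℝ) ≤ 2 * s1 - 2 := by
        have : 2 * j1 + 2 ≤ 2 * s1 := by omega
        have : (2 * (j1 : ℝ) + 2) ≤ 2 * s1 := by exact_mod_cast this
        linarith
      linarith
    have h5 : (1 : ℝ) ≤ s2 := by exact_mod_cast hs2
    have h6 : ((s2 : ℝ) - 1) / 3 ≤ Real.sqrt (psi j) := by
      apply Real.le_sqrt_of_sq_le
      nlinarith
    linarith
  linarith

/-- exact upper bound when the surplus is a clique of odd order. -/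
theorem upper_odd (m n : ℕ) (hm : 1 ≤ m) (hn : 64 * m ≤ n ^ 2) (a s : ℕ) (ha : a ≤ n)
    (hs : Odd s)
    (hj : (m : ℝ) = (a : ℝ) * (n - a) + (a : ℝ) * (a - 1) / 2 + (s : ℝ) * (s - 1) / 2) :
    (b m n : ℝ) ≤ (m : ℝ) / 2 + cost m n a := by
  have hs1 : 1 ≤ s := by
    obtain ⟨c, hc⟩ := hs; omega
  have hj' : 2 * (m : ℤ) = 2 * a * (n - a) + a * (a - 1) + s * (s - 1) := by
    have : 2 * (m : ℝ) = 2 * a * (n - a) + a * (a - 1) + s * (s - 1) := by linarith
    exact_mod_cast this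
  have c1 := cast_mul_pred s hs1
  have hss : (0 : ℤ) ≤ s * (s - 1) := by rw [← c1]; positivity
  have haa : (0 : ℤ) ≤ 2 * (a : ℤ) * (n - a) + a * (a - 1) := by
    have h2 : (a : ℤ) ≤ n := by exact_mod_cast ha
    have h3 : (0 : ℤ) ≤ a * (a - 1) := by
      rcases Nat.eq_zero_or_pos a with h | h
      · subst h; simp
      · have : (1 : ℤ) ≤ a := by exact_mod_cast h
        nlinarith
    have h4 : (0 : ℤ) ≤ a * (n - a) := mul_nonneg (Nat.cast_nonneg a) (by linarith)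
    linarith
  obtain ⟨z1, z2, z3⟩ := size_bounds hm hn ha (by linarith) hs1 (by
    have : ((s * (s - 1) : ℕ) : ℤ) ≤ ((2 * m : ℕ) : ℤ) := by rw [c1]; push_cast; linarith
    exact_mod_cast this)
  obtain ⟨G, hG, hS⟩ := Upper.construct_pos (V := Fin n) a s 0 0 0
    (by rw [Fintype.card_fin]; omega) (by simp)
  rw [Fintype.card_fin] at hG
  have hGm : G.edgeSet.ncard = m := by
    have : (G.edgeSet.ncard : ℤ) = m := by
      simp only [Nat.cast_zero] at hG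
      linarith
    exact_mod_cast this
  obtain ⟨u, hu⟩ : ∃ u, u = s / 2 := ⟨_, rfl⟩
  have hz : 0 / 2 = 0 := rfl
  rw [← hu, hz] at hS
  have h1 := b_le_of_graph G hGm _ hS (by
    rw [hGm]
    have h2 := Final.sg_cases (Fin n)
    have h3 : (0 : ℤ) ≤ a := Nat.cast_nonneg a
    have h4 : (0 : ℤ) ≤ a * (a + 1) := by positivity
    have h5 : (0 : ℤ) ≤ m := Nat.cast_nonneg m
    have h7 : (0 : ℤ) ≤ (u : ℤ) := Nat.cast_nonneg _
    simp only [Nat.cast_zero]
    rcases h2 with h | h <;> rw [h] <;> linarith)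
  rw [hGm] at h1
  push_cast at h1
  have hsh : 2 * (u : ℝ) = s - 1 := by
    obtain ⟨c, hc⟩ := hs
    have : u = c := by omega
    rw [this, hc]; push_cast; ring
  unfold cost
  have esg : (if Even n then (0 : ℝ) else (a : ℝ) / 2)
      = -((a : ℝ) / 2) * ((Final.sg (Fin n) : ℤ) : ℝ) := by
    rw [sg_real]; split_ifs <;> ring
  rw [esg]
  have hs1r : (1 : ℝ) ≤ s := by exact_mod_cast hs1
  have hpsi : psi ((m : ℝ) - ((a : ℝ) * (n - a) + (a : ℝ) * (a - 1) / 2)) = (s - 1) / 4 := by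
    have e : (m : ℝ) - ((a : ℝ) * (n - a) + (a : ℝ) * (a - 1) / 2) = s * (s - 1) / 2 := by linarith
    rw [e]
    unfold psi
    rw [if_pos (by
      have : (0 : ℝ) ≤ s - 1 := by linarith
      positivity)]
    have e2 : 8 * ((s : ℝ) * (s - 1) / 2) + 1 = (2 * s - 1) ^ 2 := by ring
    rw [e2, Real.sqrt_sq (by linarith)]
    ring
  rw [hpsi]
  linarith

/-- For `n ≥ 8√m`, `m ≥ 1`: `b(m,n) = m/2 + Ψ(m,n)` up to an additive error between `0` and
`1 + 3√Ψ(m,n)`, with equality whenever the minimum defining `Ψ` is attained at some `a` with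
`m ≤ e_a(n)` or `m = e_a(n) + s(s-1)/2`, `s` odd. -/
theorem result : ∀ m n : ℕ, 1 ≤ m → 64 * m ≤ n ^ 2 →
    ((m : ℝ) / 2 + Psi m n ≤ (b m n : ℝ) ∧
      (b m n : ℝ) ≤ (m : ℝ) / 2 + Psi m n + 1 + 3 * Real.sqrt (Psi m n)) ∧
    (∀ a : ℕ, a ≤ n → cost m n a = Psi m n →
      ((m : ℝ) ≤ (a : ℝ) * (n - a) + (a : ℝ) * (a - 1) / 2 ∨
        ∃ s : ℕ, Odd s ∧
          (m : ℝ) = (a : ℝ) * (n - a) + (a : ℝ) * (a - 1) / 2 + (s : ℝ) * (s - 1) / 2) →
      (b m n : ℝ) = (m : ℝ) / 2 + Psi m n) := by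
  intro m n hm hn
  have hbdd : BddBelow (Set.range (fun a : Fin (n + 1) => cost m n a)) :=
    (Set.finite_range _).bddBelow
  have hlow : (m : ℝ) / 2 + Psi m n ≤ (b m n : ℝ) := by
    obtain ⟨G, hG, hb⟩ := b_attained (le_choose hn)
    obtain ⟨a, ha⟩ := lower m n hn G hG
    rw [← hb]
    have : Psi m n ≤ cost m n a := ciInf_le hbdd a
    linarith
  refine ⟨⟨hlow, ?_⟩, ?_⟩
  · obtain ⟨a, ha⟩ := exists_eq_ciInf_of_finite (f := fun a : Fin (n + 1) => cost m n a)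
    have haP : cost m n a = Psi m n := ha
    have han : (a : ℕ) ≤ n := by have := a.2; omega
    have hsq : 0 ≤ Real.sqrt (Psi m n) := Real.sqrt_nonneg _
    rcases le_total ((m : ℝ) - (((a : ℕ) : ℝ) * (n - ((a : ℕ) : ℝ))
        + ((a : ℕ) : ℝ) * (((a : ℕ) : ℝ) - 1) / 2)) 0 with h | h
    · have := upper_neg m n a han h
      rw [haP] at this
      linarith
    · have h1 := upper_pos m n hm hn a han h
      rw [haP] at h1
      have h2 : Real.sqrt (psi ((m : ℝ) - (((a : ℕ) : ℝ) * (n - ((a : ℕ) : ℝ))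
        + ((a : ℕ) : ℝ) * (((a : ℕ) : ℝ) - 1) / 2))) ≤ Real.sqrt (Psi m n) := by
        apply Real.sqrt_le_sqrt
        rw [← haP]
        unfold cost
        have h3 : (0 : ℝ) ≤ (((a : ℕ) : ℝ) ^ 2 + ((a : ℕ) : ℝ)) / 4 := by positivity
        have h4 : (0 : ℝ) ≤ (if Even n then 0 else ((a : ℕ) : ℝ) / 2) := by
          split_ifs
          · exact le_rfl
          · positivity
        linarith
      linarith
  · intro a ha hc hcases
    refine le_antisymm ?_ hlow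
    rw [← hc]
    rcases hcases with h | ⟨s, hs, h⟩
    · exact upper_neg m n a ha (by linarith)
    · exact upper_odd m n hm hn a s ha hs h

end Pool.Agent.Results.MP_279640_co.WideRange
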